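import Pool.Agent.Helper46.NU.Names

/-! # The name of `ω` is a name of `ω` -/

noncomputable section

namespace NU.PkOMG

open Pool.Agent.Helper97.Ku

variable {L : Type} [CompleteBooleanAlgebra L]

theorem all_om (nat : G_NAT) {φ : BSet L → L} (h : BSet.Ext φ) (h1 : ∀ n, φ (nn n) = ⊤) :
    (⨅ x : BSet L, (x.mem omN ⇨ φ x)) = ⊤ := by
  refine iInf_eq_top.2 fun x => ?_
  rw [himp_eq_top_iff, (nat L).2.1 x]
  refine iSup_le fun n => ?_
  have h2 := h (nn n) x
  rw [h1 n, inf_top_eq, BSet.eq_comm'] at h2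
  exact h2

theorem all_nn (nat : G_NAT) {φ : BSet L → L} (h : BSet.Ext φ) (n : ℕ)
    (h1 : ∀ i < n, φ (nn i) = ⊤) : (⨅ x : BSet L, (x.mem (nn n) ⇨ φ x)) = ⊤ := by
  refine iInf_eq_top.2 fun x => ?_
  rw [himp_eq_top_iff, (nat L).1 n x]
  refine iSup_le fun i => ?_
  have h2 := h (nn i.1) x
  rw [h1 i.1 i.2, inf_top_eq, BSet.eq_comm'] at h2
  exact h2

theorem mem_nn (nat : G_NAT) {i n : ℕ} (h : i < n) : (nn i : BSet L).mem (nn n) = ⊤ := by
  rw [(nat L).2.2.2 i n]; exact bo_true h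

theorem mem_om (nat : G_NAT) (n : ℕ) : (nn n : BSet L).mem omN = ⊤ := by
  rw [(nat L).2.1]
  exact top_le_iff.1 (le_trans (by rw [BSet.eq_refl]) (le_iSup (fun m => (nn n : BSet L).eq (nn m)) n))

theorem ext_tra : BSet.Ext (fun x : BSet L => traV x) :=
  BSet.Ext.iInf fun x' => BSet.Ext.himp (BSet.Ext.mem_right x')
    (BSet.Ext.iInf fun y => BSet.Ext.himp (BSet.Ext.const _) (BSet.Ext.mem_right y))

theorem ext_in (a : BSet L) : BSet.Ext (fun x : BSet L => ⨅ y : BSet L, (y.mem x ⇨ y.mem a)) :=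
  BSet.Ext.iInf fun y => BSet.Ext.himp (BSet.Ext.mem_right y) (BSet.Ext.const _)

theorem tra_nn (nat : G_NAT) (n : ℕ) : traV (nn n : BSet L) = ⊤ :=
  all_nn nat (ext_in _) n fun i hi => all_nn nat (BSet.Ext.mem_left _) i fun _ hj =>
    mem_nn nat (hj.trans hi)

theorem omg (nat : G_NAT) : G_OMG := by
  intro L _
  have h1 : traV (omN : BSet L) = ⊤ :=
    all_om nat (ext_in _) fun n => all_nn nat (BSet.Ext.mem_left _) n fun j _ => mem_om nat j
  have h2 : ordV (omN : BSet L) = ⊤ := by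
    rw [ordV, h1, top_inf_eq]
    exact all_om nat ext_tra (tra_nn nat)
  have h3 : (⨆ x : BSet L, x.mem omN) = ⊤ :=
    top_le_iff.1 (le_trans (mem_om nat 0).ge (le_iSup (fun x : BSet L => x.mem omN) (nn 0)))
  have h4 : (⨅ x : BSet L, (x.mem omN ⇨ ⨆ y : BSet L, (y.mem omN ⊓ x.mem y))) = ⊤ := by
    refine all_om nat (BSet.Ext.iSup fun y => (BSet.Ext.const _).inf (BSet.Ext.mem_left y)) ?_
    intro n
    refine top_le_iff.1 (le_trans ?_ (le_iSup (fun y : BSet L => y.mem omN ⊓ (nn n).mem y)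
      (nn (n + 1))))
    rw [mem_om nat, mem_nn nat (Nat.lt_succ_self n), top_inf_eq]
  have h5 : (⨅ x : BSet L, (x.mem omN ⇨ ((⨅ y : BSet L, (y.mem x)ᶜ) ⊔
      ⨆ y : BSet L, (y.mem x ⊓ ⨅ z : BSet L, (z.mem x ⇨ (z.mem y ⊔ z.eq y)))))) = ⊤ := by
    refine all_om nat ((BSet.Ext.iInf fun y => (BSet.Ext.mem_right y).compl).sup
      (BSet.Ext.iSup fun y => (BSet.Ext.mem_right y).inf (BSet.Ext.iInf fun z =>
        (BSet.Ext.mem_right z).himp (BSet.Ext.const _)))) ?_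
    intro n
    rcases n with _ | m
    · have h6 : (⨅ y : BSet L, (y.mem (nn 0))ᶜ) = ⊤ := by
        refine iInf_eq_top.2 fun y => ?_
        rw [(nat L).1 0 y, iSup_of_empty, compl_bot]
      rw [h6, top_sup_eq]
    · refine top_le_iff.1 (le_trans ?_ le_sup_right)
      refine le_trans ?_ (le_iSup (fun y : BSet L => y.mem (nn (m + 1)) ⊓
        ⨅ z : BSet L, (z.mem (nn (m + 1)) ⇨ (z.mem y ⊔ z.eq y))) (nn m))
      rw [mem_nn nat (Nat.lt_succ_self m), top_inf_eq]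
      refine top_le_iff.2 ?_
      refine iInf_eq_top.2 fun z => ?_
      rw [himp_eq_top_iff, (nat L).1 (m + 1) z]
      refine iSup_le fun i => ?_
      rcases Nat.lt_succ_iff_lt_or_eq.1 i.2 with h | h
      · refine le_trans ?_ le_sup_left
        rw [(nat L).1 m z]
        exact le_iSup (fun j : Fin m => z.eq (nn j.1)) ⟨i.1, h⟩
      · rw [h]; exact le_sup_right
  rw [omegaV, h2, h3, h4, h5]
  simp

end NU.PkOMG
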